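import Pool.Agent.H964.QC.Stm2

set_option autoImplicit false

open MeasureTheory ProbabilityTheory Filter Finset

namespace Pool.Agent.H980.QC.BASE

open Pool.Agent.H964.QC

lemma log_abs (X : ℝ) (h : |X| ≤ 1 / 2) : |Real.log (1 + X)| ≤ 2 * |X| := by
  have h1 := abs_le.1 h
  have hpos : 0 < 1 + X := by linarith
  have hn : -|X| ≤ X := neg_abs_le X
  have hp : X ≤ |X| := le_abs_self X
  have h0 := abs_nonneg X
  rw [abs_le]
  constructor
  · have h2 := Real.one_sub_inv_le_log_of_pos hpos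
    have h3 : -(2 * |X|) ≤ 1 - (1 + X)⁻¹ := by
      have h4 : (1 + X)⁻¹ ≤ 1 + 2 * |X| := by
        rw [inv_le_iff_one_le_mul₀ hpos]
        nlinarith
      linarith
    linarith
  · have := Real.log_le_sub_one_of_pos hpos
    linarith

lemma ptw (X u c lam : ℝ) (hc : 0 ≤ c) (hlam : 0 < lam) :
    ‖Complex.exp (Complex.I * (u * (Real.log (1 + X) + c) : ℝ)) - 1‖ ≤
      |u| * (lam * X ^ 2 + 1 / lam + c) + 8 * X ^ 2 := by
  have hg : 0 ≤ |u| * (lam * X ^ 2 + 1 / lam + c) := by positivity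
  by_cases h : |X| ≤ 1 / 2
  · have h1 := Real.norm_exp_I_mul_ofReal_sub_one_le (x := u * (Real.log (1 + X) + c))
    refine h1.trans ?_
    rw [Real.norm_eq_abs, abs_mul]
    have h2 : |Real.log (1 + X) + c| ≤ lam * X ^ 2 + 1 / lam + c := by
      have h3 : |Real.log (1 + X) + c| ≤ |Real.log (1 + X)| + |c| := abs_add_le _ _
      rw [abs_of_nonneg hc] at h3
      have h4 := log_abs X h
      have h5 : 2 * |X| ≤ lam * X ^ 2 + 1 / lam := by
        have h6 : lam * X ^ 2 + 1 / lam - 2 * |X| = (lam * |X| - 1) ^ 2 / lam := by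
          rw [← sq_abs X]
          field_simp
          ring
        have : 0 ≤ (lam * |X| - 1) ^ 2 / lam := by positivity
        linarith
      linarith
    have h7 := mul_le_mul_of_nonneg_left h2 (abs_nonneg u)
    have h8 : 0 ≤ 8 * X ^ 2 := by positivity
    linarith
  · rw [not_le] at h
    have h1 : ‖Complex.exp (Complex.I * (u * (Real.log (1 + X) + c) : ℝ)) - 1‖ ≤ 2 := by
      refine (norm_sub_le _ _).trans ?_
      rw [Complex.norm_exp_I_mul_ofReal, norm_one]
      norm_num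
    have h2 : 1 / 4 ≤ X ^ 2 := by
      rw [← sq_abs]
      nlinarith
    linarith

theorem t_BASE : S_BASE := by
  intro hM hD hRR hM2 hB2 hUU hOV hGS C0 κ hC0 hκ
  obtain ⟨Cb, hCb, hb⟩ := hB2 hRR hUU hOV hGS hM2 C0 κ hC0 hκ
  set D : ℝ := 2 * (1 + 2 * Cb) with hDd
  have hD0 : 0 < D := by positivity
  refine ⟨9 * D + 3, 4, by linarith, by norm_num, ?_⟩
  intro V _ _ N0 W Ω _ P _ s2 η w t j L Ls u hs2 hN hL hLs hLs4 hj ht hN0 hG
  have hLs0 : 0 < Ls := by linarith
  have hmono : RR t ≤ RR (t + j) := by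
    unfold RR
    refine Finset.sum_le_sum_of_subset_of_nonneg (Finset.Icc_subset_Icc_right (by omega))
      fun i _ _ => (hRR.1 i).le
  have hLL : Ls ≤ L := by rw [hL, hLs]; linarith
  have hL0 : 0 < L := by linarith
  have hdiff : L - Ls ≤ Real.sqrt L := by rw [hL, hLs] at *; linarith
  have hsqL : Real.sqrt L ≤ L / 2 := by
    rw [Real.sqrt_le_left (by positivity)]
    nlinarith
  have hL2 : L ≤ 2 * Ls := by linarith
  have hsq0 : 0 < Real.sqrt L := Real.sqrt_pos.2 hL0
  -- the variance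
  have hvar := (hb V N0 W Ω P s2 η w t j L Ls hs2 hN ht (by linarith) (by omega) hLs
    (by linarith) hG).1
  obtain ⟨hm4, hpos, -, hmZ, -, -, hmc, hL4, hmean, -, -⟩ := hM V C0 N0 W Ω P s2 κ η hN
  have hdual := (hD V C0 N0 W)
  set Y : Ω → ℝ := fun ω => ∑ x, w x * Zr W (cfg η ω) j x with hY
  set X : Ω → ℝ := fun ω => Y ω - 1 with hX
  have hXX : ∀ ω, XX W w j (cfg η ω) j = X ω := by
    intro ω
    rw [(hdual (cfg η ω) w j j).2.2.1, hG.sum]
  simp only [hXX] at hvar
  have hYm : Measurable Y := by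
    rw [hY]
    refine Finset.measurable_sum _ fun x _ => ?_
    exact ((hmZ j x).comp hmc).const_mul _
  have hYL : MemLp Y 4 P := by
    rw [hY]
    exact memLp_finsetSum _ fun x _ => (hL4 j x).const_mul _
  have hXL : MemLp X 4 P := hYL.sub (memLp_const 1)
  have hXL2 : MemLp X 2 P := hXL.mono_exponent (by norm_num)
  have hXi : Integrable (fun ω => X ω ^ 2) P := hXL2.integrable_sq
  have hV0 : 0 ≤ ∫ ω, X ω ^ 2 ∂P := integral_nonneg fun ω => by positivity
  -- powers of Ls
  set v : ℝ := Ls ^ (1 / 4 : ℝ) with hv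
  have hv0 : 0 < v := Real.rpow_pos_of_pos hLs0 _
  have hv4 : v ^ 4 = Ls := by
    rw [hv, ← Real.rpow_natCast, ← Real.rpow_mul hLs0.le]; norm_num
  have hv1 : 1 ≤ v := Real.one_le_rpow (by linarith) (by norm_num)
  have hsv : Real.sqrt Ls = v ^ 2 := by
    rw [Real.sqrt_eq_iff_mul_self_eq hLs0.le (by positivity), ← hv4]; ring
  have hneg : Ls ^ (-(1 / 4) : ℝ) = 1 / v := by
    rw [Real.rpow_neg hLs0.le, ← hv, one_div]
  have hsqLv : Real.sqrt L ≤ 2 * v ^ 2 := by
    have h1 : Real.sqrt L ≤ Real.sqrt (4 * Ls) := Real.sqrt_le_sqrt (by linarith)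
    have h2 : Real.sqrt (4 * Ls) = 2 * v ^ 2 := by
      rw [Real.sqrt_eq_iff_mul_self_eq (by positivity) (by positivity), ← hv4]; ring
    linarith
  have hlog : 1 + Real.log L ≤ 2 * Real.sqrt L := by
    have h1 : Real.log L = 2 * Real.log (Real.sqrt L) := by
      rw [Real.log_sqrt hL0.le]; ring
    have h2 := Real.log_le_sub_one_of_pos hsq0
    linarith
  have hEX : ∫ ω, X ω ^ 2 ∂P ≤ D / v ^ 2 := by
    refine hvar.trans ?_
    rw [div_le_div_iff₀ hLs0 (by positivity)]
    have h1 : RR (t + j) - RR t + Cb * (1 + Real.log L) ≤ (1 + 2 * Cb) * Real.sqrt L := by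
      have h2 : Cb * (1 + Real.log L) ≤ Cb * (2 * Real.sqrt L) :=
        mul_le_mul_of_nonneg_left hlog (by linarith)
      linarith
    have h3 : (1 + 2 * Cb) * Real.sqrt L ≤ D * v ^ 2 := by
      calc (1 + 2 * Cb) * Real.sqrt L ≤ (1 + 2 * Cb) * (2 * v ^ 2) :=
            mul_le_mul_of_nonneg_left hsqLv (by linarith)
        _ = D * v ^ 2 := by rw [hDd]; ring
    calc (RR (t + j) - RR t + Cb * (1 + Real.log L)) * v ^ 2
        ≤ (D * v ^ 2) * v ^ 2 := mul_le_mul_of_nonneg_right (h1.trans h3) (by positivity)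
      _ = D * v ^ 4 := by ring
      _ = D * Ls := by rw [hv4]
  -- the centring
  set c : ℝ := 1 / 2 * Real.log (L / Ls) with hc
  have hLr : 1 ≤ L / Ls := by rw [le_div_iff₀ hLs0]; linarith
  have hlog0 : 0 ≤ Real.log (L / Ls) := Real.log_nonneg hLr
  have hc0 : 0 ≤ c := by rw [hc]; positivity
  have hcv : c ≤ 1 / v ^ 2 := by
    have h1 := Real.log_le_sub_one_of_pos (show 0 < L / Ls by positivity)
    have h2 : L / Ls - 1 = (L - Ls) / Ls := by field_simp
    have h3 : (L - Ls) / Ls ≤ 2 / v ^ 2 := by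
      rw [div_le_div_iff₀ hLs0 (by positivity), ← hv4]
      calc (L - v ^ 4) * v ^ 2 ≤ (2 * v ^ 2) * v ^ 2 := by
            refine mul_le_mul_of_nonneg_right ?_ (by positivity)
            rw [hv4]
            linarith
        _ = 2 * v ^ 4 := by ring
    rw [hc]
    have h4 : 2 / v ^ 2 = 2 * (1 / v ^ 2) := by ring
    linarith
  have hvv : 1 / v ^ 2 ≤ 1 / v := by
    rw [div_le_div_iff₀ (by positivity) hv0]
    nlinarith
  -- the characteristic function
  have hint : ∀ ω, Complex.exp (Complex.I * (u * (Real.log (∑ x, w x * Zr W (cfg η ω) j x) + c) : ℝ))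
      = Complex.exp (Complex.I * (u * (Real.log (1 + X ω) + c) : ℝ)) := by
    intro ω
    rw [show (∑ x, w x * Zr W (cfg η ω) j x) = 1 + X ω by rw [hX, hY]; ring]
  have hfm : Measurable (fun ω => Complex.exp (Complex.I * (u * (Real.log (1 + X ω) + c) : ℝ))) := by
    have hXm : Measurable X := hYm.sub_const 1
    have h1 : Measurable (fun ω => u * (Real.log (1 + X ω) + c)) :=
      ((Real.measurable_log.comp (hXm.const_add 1)).add_const c).const_mul u
    exact Complex.measurable_exp.comp ((Complex.measurable_ofReal.comp h1).const_mul _)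
  have hfi : Integrable (fun ω => Complex.exp (Complex.I * (u * (Real.log (1 + X ω) + c) : ℝ))) P := by
    refine Integrable.of_bound hfm.aestronglyMeasurable 1 (Eventually.of_forall fun ω => ?_)
    rw [Complex.norm_exp_I_mul_ofReal]
  have hchi : ‖chi W P η u c j w - 1‖ ≤
      |u| * (v * (D / v ^ 2) + 1 / v + c) + 8 * (D / v ^ 2) := by
    have h1 : chi W P η u c j w - 1 =
        ∫ ω, (Complex.exp (Complex.I * (u * (Real.log (1 + X ω) + c) : ℝ)) - 1) ∂P := by
      rw [integral_sub hfi (integrable_const _)]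
      rw [integral_const, probReal_univ, one_smul]
      unfold chi
      rw [integral_congr_ae (Eventually.of_forall hint)]
    rw [h1]
    have i0 : Integrable (fun ω => v * X ω ^ 2) P := hXi.const_mul v
    have i1 : Integrable (fun ω => v * X ω ^ 2 + 1 / v) P := i0.add (integrable_const _)
    have i2 : Integrable (fun ω => v * X ω ^ 2 + 1 / v + c) P := i1.add (integrable_const _)
    have i3 : Integrable (fun ω => |u| * (v * X ω ^ 2 + 1 / v + c)) P := i2.const_mul _
    have i4 : Integrable (fun ω => 8 * X ω ^ 2) P := hXi.const_mul 8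
    have h2 : Integrable (fun ω => |u| * (v * X ω ^ 2 + 1 / v + c) + 8 * X ω ^ 2) P := i3.add i4
    refine (norm_integral_le_of_norm_le h2 (Eventually.of_forall fun ω =>
      ptw (X ω) u c v hc0 hv0)).trans ?_
    have h3 : ∫ ω, (|u| * (v * X ω ^ 2 + 1 / v + c) + 8 * X ω ^ 2) ∂P =
        |u| * (v * (∫ ω, X ω ^ 2 ∂P) + 1 / v + c) + 8 * ∫ ω, X ω ^ 2 ∂P := by
      rw [integral_add i3 i4, integral_const_mul, integral_const_mul,
        integral_add i1 (integrable_const _), integral_add i0 (integrable_const _),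
        integral_const_mul, integral_const, integral_const, probReal_univ, one_smul, one_smul]
    rw [h3]
    have h4 : v * (∫ ω, X ω ^ 2 ∂P) ≤ v * (D / v ^ 2) := mul_le_mul_of_nonneg_left hEX hv0.le
    have h5 : |u| * (v * (∫ ω, X ω ^ 2 ∂P) + 1 / v + c) ≤ |u| * (v * (D / v ^ 2) + 1 / v + c) :=
      mul_le_mul_of_nonneg_left (by linarith) (abs_nonneg u)
    linarith
  have hexp : ‖Complex.exp ((-(u ^ 2 / 2 * Real.log (L / Ls)) : ℝ)) - 1‖ ≤ u ^ 2 * c := by
    rw [← Complex.ofReal_exp, ← Complex.ofReal_one, ← Complex.ofReal_sub, Complex.norm_real,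
      Real.norm_eq_abs, abs_sub_comm]
    have h1 : 0 ≤ u ^ 2 / 2 * Real.log (L / Ls) := by positivity
    have h2 : Real.exp (-(u ^ 2 / 2 * Real.log (L / Ls))) ≤ 1 := by
      rw [Real.exp_le_one_iff]; linarith
    rw [abs_of_nonneg (by linarith)]
    have h3 := Real.add_one_le_exp (-(u ^ 2 / 2 * Real.log (L / Ls)))
    have h4 : u ^ 2 / 2 * Real.log (L / Ls) = u ^ 2 * c := by rw [hc]; ring
    linarith
  have htri : ‖chi W P η u c j w - Complex.exp ((-(u ^ 2 / 2 * Real.log (L / Ls)) : ℝ))‖ ≤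
      ‖chi W P η u c j w - 1‖ + ‖Complex.exp ((-(u ^ 2 / 2 * Real.log (L / Ls)) : ℝ)) - 1‖ := by
    have h1 : chi W P η u c j w - Complex.exp ((-(u ^ 2 / 2 * Real.log (L / Ls)) : ℝ)) =
        (chi W P η u c j w - 1) - (Complex.exp ((-(u ^ 2 / 2 * Real.log (L / Ls)) : ℝ)) - 1) := by
      ring
    rw [h1]
    exact norm_sub_le _ _
  refine htri.trans ?_
  rw [hneg]
  have hu1 : |u| ≤ 1 + u ^ 4 := by
    have h1 : |u| ≤ 1 + |u| ^ 4 := by
      rcases le_total |u| 1 with h | h
      · have : 0 ≤ |u| ^ 4 := by positivity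
        linarith
      · have h2 : |u| ≤ |u| ^ 4 := by
          calc |u| = |u| ^ 1 := (pow_one _).symm
            _ ≤ |u| ^ 4 := pow_le_pow_right₀ h (by norm_num)
        linarith
    have h2 : |u| ^ 4 = u ^ 4 := by
      rw [show (4 : ℕ) = 2 * 2 by norm_num, pow_mul, pow_mul, sq_abs]
    linarith
  have hu2 : u ^ 2 ≤ 1 + u ^ 4 := by nlinarith [sq_nonneg (u ^ 2 - 1), sq_nonneg u]
  have hu0 : (1 : ℝ) ≤ 1 + u ^ 4 := by
    have : 0 ≤ u ^ 4 := by positivity
    linarith
  have hvp : 0 < 1 / v := by positivity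
  have hDv : v * (D / v ^ 2) = D * (1 / v) := by field_simp
  have hcv' : c ≤ 1 / v := hcv.trans hvv
  have hD2 : D / v ^ 2 ≤ D * (1 / v) := by
    calc D / v ^ 2 = D * (1 / v ^ 2) := by ring
      _ ≤ D * (1 / v) := mul_le_mul_of_nonneg_left hvv hD0.le
  have hA : |u| * (v * (D / v ^ 2) + 1 / v + c) ≤ (1 + u ^ 4) * ((D + 2) * (1 / v)) := by
    refine mul_le_mul hu1 ?_ (by positivity) (by positivity)
    rw [hDv]
    linarith
  have hB : 8 * (D / v ^ 2) ≤ (1 + u ^ 4) * (8 * D * (1 / v)) := by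
    calc 8 * (D / v ^ 2) ≤ 8 * (D * (1 / v)) := by linarith
      _ = 1 * (8 * D * (1 / v)) := by ring
      _ ≤ _ := mul_le_mul_of_nonneg_right hu0 (by positivity)
  have hCc : u ^ 2 * c ≤ (1 + u ^ 4) * (1 / v) :=
    mul_le_mul hu2 hcv' hc0 (by positivity)
  have hfin : (9 * D + 3) * (1 + u ^ 4) * (1 / v) = (1 + u ^ 4) * ((D + 2) * (1 / v)) +
      (1 + u ^ 4) * (8 * D * (1 / v)) + (1 + u ^ 4) * (1 / v) := by ring
  rw [hfin]
  linarith

end Pool.Agent.H980.QC.BASE
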