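import Pool.Agent.H964.QC.Stm2

set_option autoImplicit false

open MeasureTheory ProbabilityTheory Filter Finset

namespace Pool.Agent.H980.QC

open Pool.Agent.H964.QC

lemma RR_succ (n : ℕ) : RR (n + 1) = RR n + rr (n + 1) := by
  unfold RR
  rw [Finset.sum_Icc_succ_top (by omega)]

lemma RR_mono (hRR : S_RR) : Monotone RR := by
  refine monotone_nat_of_le_succ fun n => ?_
  rw [RR_succ]
  linarith [hRR.1 (n + 1)]

lemma rr_le_one (hRR : S_RR) (n : ℕ) : rr n ≤ 1 := by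
  refine (hRR.2.1 n).trans ?_
  rw [div_le_one (by positivity)]
  have : (0 : ℝ) ≤ n := Nat.cast_nonneg n
  linarith

lemma find_T (hRR : S_RR) (t N : ℕ) (a : ℝ) (ha : 0 < a) (htN : t ≤ N)
    (h : a ≤ RR N - RR t) :
    ∃ T : ℕ, 1 ≤ T ∧ t + T ≤ N ∧ a ≤ RR (t + T) - RR t ∧ RR (t + T) - RR t ≤ a + 1 := by
  classical
  have hex : ∃ T : ℕ, a ≤ RR (t + T) - RR t := ⟨N - t, by
    rw [Nat.add_sub_cancel' htN]; exact h⟩
  have hle : Nat.find hex ≤ N - t := Nat.find_min' hex (by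
    rw [Nat.add_sub_cancel' htN]; exact h)
  have hsp := Nat.find_spec hex
  have hmin := fun m hm => Nat.find_min hex (m := m) hm
  generalize Nat.find hex = T at hle hsp hmin
  have hT : T ≠ 0 := by
    rintro rfl
    rw [add_zero, sub_self] at hsp
    linarith
  obtain ⟨k, rfl⟩ := Nat.exists_eq_succ_of_ne_zero hT
  refine ⟨k + 1, by omega, by omega, hsp, ?_⟩
  have hk := hmin k (Nat.lt_succ_self k)
  rw [not_le] at hk
  have h1 : RR (t + (k + 1)) = RR (t + k) + rr (t + k + 1) := RR_succ (t + k)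
  rw [h1]
  have := rr_le_one hRR (t + k + 1)
  linarith

lemma key_pow (L L' : ℝ) (hL' : 0 < L') (h : L' ≤ L - Real.sqrt L) :
    L ^ (-(3 / 4) : ℝ) ≤ 4 * (L' ^ (-(1 / 4) : ℝ) - L ^ (-(1 / 4) : ℝ)) := by
  have hs : 0 ≤ Real.sqrt L := Real.sqrt_nonneg L
  have hL : 0 < L := by linarith
  set x : ℝ := L ^ (1 / 4 : ℝ) with hx
  set y : ℝ := L' ^ (1 / 4 : ℝ) with hy
  have hx0 : 0 < x := Real.rpow_pos_of_pos hL _
  have hy0 : 0 < y := Real.rpow_pos_of_pos hL' _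
  have hx4 : x ^ 4 = L := by
    rw [hx, ← Real.rpow_natCast, ← Real.rpow_mul hL.le]; norm_num
  have hy4 : y ^ 4 = L' := by
    rw [hy, ← Real.rpow_natCast, ← Real.rpow_mul hL'.le]; norm_num
  have hsq : Real.sqrt L = x ^ 2 := by
    rw [Real.sqrt_eq_iff_mul_self_eq hL.le (by positivity), ← hx4]; ring
  have e1 : L ^ (-(1 / 4) : ℝ) = x⁻¹ := by rw [Real.rpow_neg hL.le, hx]
  have e2 : L' ^ (-(1 / 4) : ℝ) = y⁻¹ := by rw [Real.rpow_neg hL'.le, hy]
  have e3 : L ^ (-(3 / 4) : ℝ) = (x ^ 3)⁻¹ := by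
    rw [Real.rpow_neg hL.le, hx, ← Real.rpow_natCast, ← Real.rpow_mul hL.le]; norm_num
  rw [e1, e2, e3]
  rw [hsq, ← hx4, ← hy4] at h
  have hyx : y < x := by
    by_contra hcon
    have : x ^ 4 ≤ y ^ 4 := pow_le_pow_left₀ hx0.le (not_lt.1 hcon) 4
    have : 0 < x ^ 2 := by positivity
    linarith
  have h1 : x ^ 2 ≤ (x - y) * (4 * x ^ 3) := by
    have h2 : x ^ 4 - y ^ 4 = (x - y) * ((x + y) * (x ^ 2 + y ^ 2)) := by ring
    have h3 : (x + y) * (x ^ 2 + y ^ 2) ≤ (2 * x) * (2 * x ^ 2) := by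
      have : y ^ 2 ≤ x ^ 2 := pow_le_pow_left₀ hy0.le hyx.le 2
      exact mul_le_mul (by linarith) (by linarith) (by positivity) (by positivity)
    have h4 : (x - y) * ((x + y) * (x ^ 2 + y ^ 2)) ≤ (x - y) * ((2 * x) * (2 * x ^ 2)) :=
      mul_le_mul_of_nonneg_left h3 (by linarith)
    have h5 : (x - y) * ((2 * x) * (2 * x ^ 2)) = (x - y) * (4 * x ^ 3) := by ring
    linarith
  have h6 : 4 * (y⁻¹ - x⁻¹) = 4 * (x - y) / (x * y) := by field_simp
  rw [h6, inv_eq_one_div, div_le_div_iff₀ (by positivity) (by positivity), one_mul]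
  have h7 : x * y ≤ x ^ 2 := by
    rw [sq]
    exact mul_le_mul_of_nonneg_left hyx.le hx0.le
  linarith

theorem t_CHAIN : S_CHAIN := by
  intro hRR hS hB hI C0 κ hC0 hκ
  obtain ⟨C1, L1, hC1, hL1, hstep⟩ := hS C0 κ hC0 hκ
  obtain ⟨C2, L2, hC2, hL2, hbase⟩ := hB C0 κ hC0 hκ
  obtain ⟨C3, L3, hC3, hL3, hinit⟩ := hI C0 κ hC0 hκ
  set K : ℝ := 4 * C1 + C2 with hK
  have hK0 : 0 < K := by positivity
  refine ⟨3 * K + C3, L1 + L2 + L3 + 10000, by linarith, by linarith, ?_⟩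
  intro V _ _ N0 W Ω _ P _ s2 η x0 N Ls u hs2 hL0 hN hcls hd hLs hL0' hhalf hN0
  have hLs0 : 0 < Ls := by linarith
  have hmono := RR_mono hRR
  have hu : 0 < 1 + u ^ 4 := by positivity
  have hX : 10000 ≤ 1 / s2 := by linarith
  have hX4 : 1 ≤ 1 / s2 ^ 4 := by
    rw [← one_div_pow]
    exact one_le_pow₀ (by linarith)
  -- the claim
  have claim : ∀ n t : ℕ, N - t = n → t ≤ N → 1 / s2 ^ 4 ≤ (t : ℝ) → ∀ w : V → ℝ,
      Good W t (1 / s2 - RR t) w →
      ‖chi W P η u (1 / 2 * Real.log ((1 / s2 - RR t) / Ls)) (N - t) w -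
        Complex.exp ((-(u ^ 2 / 2 * Real.log ((1 / s2 - RR t) / Ls)) : ℝ))‖ ≤
      K * (1 + u ^ 4) * (3 * Ls ^ (-(1 / 4) : ℝ) - (1 / s2 - RR t) ^ (-(1 / 4) : ℝ)) := by
    intro n
    induction n using Nat.strong_induction_on with
    | _ n ih =>
      intro t hn htN ht w hw
      have hLL : Ls ≤ 1 / s2 - RR t := by
        have := hmono htN
        linarith
      have hL0'' : 0 < 1 / s2 - RR t := by linarith
      have hcmp : (1 / s2 - RR t) ^ (-(1 / 4) : ℝ) ≤ Ls ^ (-(1 / 4) : ℝ) :=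
        Real.rpow_le_rpow_of_nonpos hLs0 hLL (by norm_num)
      have hLsp : 0 < Ls ^ (-(1 / 4) : ℝ) := Real.rpow_pos_of_pos hLs0 _
      have ht1 : 1 ≤ t := by
        have : (1 : ℝ) ≤ t := hX4.trans ht
        exact_mod_cast this
      by_cases hcase : RR N - RR t ≤ Real.sqrt (1 / s2 - RR t)
      · have hb := hbase V N0 W Ω P s2 η w t (N - t) (1 / s2 - RR t) Ls u hs2 hN rfl
          (by rw [Nat.add_sub_cancel' htN]; exact hLs) (by linarith)
          (by rw [Nat.add_sub_cancel' htN]; exact hcase) ht1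
          (by rw [Nat.add_sub_cancel' htN]; exact hN0) hw
        refine hb.trans ?_
        have h1 : C2 * (1 + u ^ 4) * Ls ^ (-(1 / 4) : ℝ) ≤ K * (1 + u ^ 4) * Ls ^ (-(1 / 4) : ℝ) := by
          refine mul_le_mul_of_nonneg_right (mul_le_mul_of_nonneg_right ?_ hu.le) hLsp.le
          rw [hK]
          linarith
        refine h1.trans (mul_le_mul_of_nonneg_left ?_ (by positivity))
        linarith
      · rw [not_le] at hcase
        have hsq : 0 < Real.sqrt (1 / s2 - RR t) := Real.sqrt_pos.2 hL0''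
        obtain ⟨T, hT1, hTN, hT2, hT3⟩ := find_T hRR t N _ hsq htN hcase.le
        have hLL' : Ls ≤ 1 / s2 - RR (t + T) := by
          have := hmono hTN
          linarith
        have htT : 1 / s2 ^ 4 ≤ ((t + T : ℕ) : ℝ) := by
          refine ht.trans ?_
          exact_mod_cast Nat.le_add_right t T
        have hIH := ih (N - (t + T)) (by omega) (t + T) rfl hTN htT
        have hL'0 : 0 < 1 / s2 - RR (t + T) := by linarith
        have hcmp' : (1 / s2 - RR (t + T)) ^ (-(1 / 4) : ℝ) ≤ Ls ^ (-(1 / 4) : ℝ) :=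
          Real.rpow_le_rpow_of_nonpos hLs0 hLL' (by norm_num)
        have he : 0 ≤ K * (1 + u ^ 4) * (3 * Ls ^ (-(1 / 4) : ℝ) -
            (1 / s2 - RR (t + T)) ^ (-(1 / 4) : ℝ)) := by
          refine mul_nonneg (by positivity) ?_
          linarith
        have hst := hstep V N0 W Ω P s2 η w t T (N - (t + T)) (1 / s2 - RR t)
          (1 / s2 - RR (t + T)) Ls u _ hs2 hN rfl rfl (by linarith) hLL' hT2 hT3 ht
          (le_trans (Nat.mul_le_mul_left 4 hTN) hN0) hw he hIH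
        rw [show N - (t + T) + T = N - t by omega] at hst
        refine hst.trans ?_
        have hk := key_pow (1 / s2 - RR t) (1 / s2 - RR (t + T)) hL'0 (by linarith)
        have h2 : C1 * (1 + u ^ 4) * (1 / s2 - RR t) ^ (-(3 / 4) : ℝ) ≤
            K * (1 + u ^ 4) * ((1 / s2 - RR (t + T)) ^ (-(1 / 4) : ℝ) -
              (1 / s2 - RR t) ^ (-(1 / 4) : ℝ)) := by
          have hd0 : 0 ≤ (1 / s2 - RR (t + T)) ^ (-(1 / 4) : ℝ) -
              (1 / s2 - RR t) ^ (-(1 / 4) : ℝ) := by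
            have : 0 ≤ (1 / s2 - RR t) ^ (-(3 / 4) : ℝ) := Real.rpow_nonneg hL0''.le _
            linarith
          calc C1 * (1 + u ^ 4) * (1 / s2 - RR t) ^ (-(3 / 4) : ℝ)
              ≤ C1 * (1 + u ^ 4) * (4 * ((1 / s2 - RR (t + T)) ^ (-(1 / 4) : ℝ) -
                (1 / s2 - RR t) ^ (-(1 / 4) : ℝ))) :=
                mul_le_mul_of_nonneg_left hk (by positivity)
            _ = (4 * C1) * (1 + u ^ 4) * ((1 / s2 - RR (t + T)) ^ (-(1 / 4) : ℝ) -
                (1 / s2 - RR t) ^ (-(1 / 4) : ℝ)) := by ring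
            _ ≤ _ := by
                refine mul_le_mul_of_nonneg_right (mul_le_mul_of_nonneg_right ?_ hu.le) hd0
                rw [hK]
                linarith
        linarith
  -- the first block
  have hsqX : 0 < Real.sqrt (1 / s2) := Real.sqrt_pos.2 (by positivity)
  have hRR0 : RR 0 = 0 := by
    unfold RR
    simp
  have hXN : Real.sqrt (1 / s2) ≤ RR N - RR 0 := by
    rw [hRR0, sub_zero]
    have h1 : Real.sqrt (1 / s2) ≤ 1 / 2 * (1 / s2) := by
      rw [Real.sqrt_le_left (by positivity)]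
      nlinarith
    linarith
  obtain ⟨T, hT1, hTN, hT2, hT3⟩ := find_T hRR 0 N _ hsqX (Nat.zero_le N) hXN
  rw [hRR0, sub_zero, zero_add] at hT2 hT3
  rw [zero_add] at hTN
  have hTpos : (0 : ℝ) < T := by exact_mod_cast hT1
  have hTX : 1 / s2 ^ 4 ≤ (T : ℝ) := by
    have h1 := hRR.2.2.2.2.2.2 T hT1
    set v : ℝ := (1 / s2) ^ (1 / 4 : ℝ) with hv
    have hX0 : 0 < 1 / s2 := by positivity
    have hv0 : 0 < v := Real.rpow_pos_of_pos hX0 _
    have hv4 : v ^ 4 = 1 / s2 := by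
      rw [hv, ← Real.rpow_natCast, ← Real.rpow_mul hX0.le]; norm_num
    have hv10 : 10 ≤ v := by
      by_contra hcon
      rw [not_le] at hcon
      have : v ^ 4 < 10 ^ 4 := pow_lt_pow_left₀ hcon hv0.le (by norm_num)
      rw [hv4] at this
      linarith
    have hsqv : Real.sqrt (1 / s2) = v ^ 2 := by
      rw [Real.sqrt_eq_iff_mul_self_eq hX0.le (by positivity), ← hv4]; ring
    have hlogv : Real.log v ≤ v - 1 := Real.log_le_sub_one_of_pos hv0
    have hlog : Real.log (1 / s2 ^ 4) = 16 * Real.log v := by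
      rw [← one_div_pow, ← hv4, ← pow_mul, Real.log_pow]
      norm_num
    have hlogT : Real.log (1 / s2 ^ 4) ≤ Real.log T := by
      rw [hlog]
      rw [hsqv] at hT2
      nlinarith
    exact (Real.log_le_log_iff (by positivity) hTpos).1 hlogT
  have hLL' : Ls ≤ 1 / s2 - RR T := by
    have := hmono hTN
    linarith
  have hLsp : 0 < Ls ^ (-(1 / 4) : ℝ) := Real.rpow_pos_of_pos hLs0 _
  have hL'0 : 0 < 1 / s2 - RR T := by linarith
  have hcmp' : (1 / s2 - RR T) ^ (-(1 / 4) : ℝ) ≤ Ls ^ (-(1 / 4) : ℝ) :=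
    Real.rpow_le_rpow_of_nonpos hLs0 hLL' (by norm_num)
  have hpp : 0 ≤ (1 / s2 - RR T) ^ (-(1 / 4) : ℝ) := Real.rpow_nonneg hL'0.le _
  have he : 0 ≤ K * (1 + u ^ 4) * (3 * Ls ^ (-(1 / 4) : ℝ) -
      (1 / s2 - RR T) ^ (-(1 / 4) : ℝ)) := by
    refine mul_nonneg (by positivity) ?_
    linarith
  have hin := hinit V N0 W Ω P s2 η x0 T (N - T) (1 / s2 - RR T) Ls u _ hs2 hN hcls hd rfl
    (by linarith) hLL' hT2 hT3 (le_trans (Nat.mul_le_mul_left 4 hTN) hN0) he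
    (claim (N - T) T rfl hTN hTX)
  rw [Nat.sub_add_cancel hTN] at hin
  refine hin.trans ?_
  have h3 : K * (1 + u ^ 4) * (3 * Ls ^ (-(1 / 4) : ℝ) - (1 / s2 - RR T) ^ (-(1 / 4) : ℝ)) ≤
      K * (1 + u ^ 4) * (3 * Ls ^ (-(1 / 4) : ℝ)) :=
    mul_le_mul_of_nonneg_left (by linarith) (by positivity)
  calc _ ≤ K * (1 + u ^ 4) * (3 * Ls ^ (-(1 / 4) : ℝ)) +
        C3 * (1 + u ^ 4) * Ls ^ (-(1 / 4) : ℝ) := by linarith
    _ = _ := by ring

end Pool.Agent.H980.QC
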